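import Mathlib

/-!
# Extremal polynomial-solution points of the Josephson model are never collinear

For every frequency `ω > 0` the three points `𝒫₁, 𝒫₂, 𝒫₃` exist and do not lie on one line.
-/

namespace Pool.Agent.Results.MP_e0279d_an.NeverCollinear

open Polynomial

/-- With `μ = A / (2ω)` and `lam = 1/(4ω²) - μ²`, the double confluent Heun equation
`z² E'' + ((1 - l) z + μ (1 - z²)) E' + (lam + μ (l - 1) z) E = 0`
has a nonzero polynomial solution `E ∈ ℂ[z]`. -/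
def HasPolySol (ω : ℝ) (l : ℕ) (A : ℝ) : Prop :=
  ∃ E : ℂ[X], E ≠ 0 ∧ ∀ z : ℂ,
    z ^ 2 * (derivative (derivative E)).eval z
      + ((1 - (l : ℂ)) * z + ((A / (2 * ω) : ℝ) : ℂ) * (1 - z ^ 2)) * (derivative E).eval z
      + (((1 / (4 * ω ^ 2) - (A / (2 * ω)) ^ 2 : ℝ) : ℂ)
          + ((A / (2 * ω) : ℝ) : ℂ) * ((l : ℂ) - 1) * z) * E.eval z = 0

/-- `P` is the point `𝒫_l`: the point of the vertical line `B = l ω` in the `(B, A)`-plane
having the largest `A`-coordinate among the points of that line for which the equation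
has a nonzero polynomial solution. -/
def IsExtremalPoint (ω : ℝ) (l : ℕ) (P : ℝ × ℝ) : Prop :=
  P.1 = l * ω ∧ IsGreatest {A : ℝ | HasPolySol ω l A} P.2

/-- The recursion for the coefficients of a polynomial solution. -/
lemma coeff_rec {E : ℂ[X]} {l : ℕ} {m lam : ℂ}
    (h : ∀ z : ℂ, z ^ 2 * (derivative (derivative E)).eval z
      + ((1 - (l : ℂ)) * z + m * (1 - z ^ 2)) * (derivative E).eval z
      + (lam + m * ((l : ℂ) - 1) * z) * E.eval z = 0) (n : ℕ) :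
    (((n : ℂ) + 1) * ((n : ℂ) + 1 - l) + lam) * E.coeff (n + 1)
      + m * ((n : ℂ) + 2) * E.coeff (n + 2) + m * ((l : ℂ) - (n + 1)) * E.coeff n = 0 := by
  have hp : X ^ 2 * derivative (derivative E)
      + (C (1 - (l : ℂ)) * X + C m * (1 - X ^ 2)) * derivative E
      + (C lam + C (m * ((l : ℂ) - 1)) * X) * E = 0 := by
    apply Polynomial.funext
    intro z
    have := h z
    simpa using this
  have hc := congrArg (fun p => coeff p (n + 1)) hp
  rcases n with _ | n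
  · simp [add_mul, sub_mul, mul_assoc, coeff_X_pow_mul', coeff_derivative, mul_sub, coeff_X_mul,
      coeff_C_mul] at hc
    linear_combination hc
  · simp [add_mul, sub_mul, mul_assoc, coeff_X_pow_mul', coeff_derivative, mul_sub, coeff_X_mul,
      coeff_C_mul] at hc
    push_cast
    linear_combination hc

lemma coeff_zero_rec {E : ℂ[X]} {l : ℕ} {m lam : ℂ}
    (h : ∀ z : ℂ, z ^ 2 * (derivative (derivative E)).eval z
      + ((1 - (l : ℂ)) * z + m * (1 - z ^ 2)) * (derivative E).eval z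
      + (lam + m * ((l : ℂ) - 1) * z) * E.eval z = 0) :
    lam * E.coeff 0 + m * E.coeff 1 = 0 := by
  have hp : X ^ 2 * derivative (derivative E)
      + (C (1 - (l : ℂ)) * X + C m * (1 - X ^ 2)) * derivative E
      + (C lam + C (m * ((l : ℂ) - 1)) * X) * E = 0 := by
    apply Polynomial.funext
    intro z
    have := h z
    simpa using this
  have hc := congrArg (fun p => coeff p 0) hp
  simp [add_mul, sub_mul, mul_assoc, coeff_derivative, mul_sub] at hc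
  linear_combination hc

/-- A polynomial solution has degree exactly `l - 1` when `m ≠ 0`. -/
lemma natDegree_eq {E : ℂ[X]} (hE : E ≠ 0) {l : ℕ} {m lam : ℂ} (hm : m ≠ 0)
    (h : ∀ z : ℂ, z ^ 2 * (derivative (derivative E)).eval z
      + ((1 - (l : ℂ)) * z + m * (1 - z ^ 2)) * (derivative E).eval z
      + (lam + m * ((l : ℂ) - 1) * z) * E.eval z = 0) :
    E.natDegree + 1 = l := by
  have hr := coeff_rec h E.natDegree
  rw [coeff_eq_zero_of_natDegree_lt (by omega : E.natDegree < E.natDegree + 1),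
    coeff_eq_zero_of_natDegree_lt (by omega : E.natDegree < E.natDegree + 2)] at hr
  have hlc : E.coeff E.natDegree ≠ 0 := by
    rw [coeff_natDegree]
    exact leadingCoeff_ne_zero.mpr hE
  have h2 : m * ((l : ℂ) - (E.natDegree + 1)) * E.coeff E.natDegree = 0 := by
    linear_combination hr
  have h3 : (l : ℂ) - (E.natDegree + 1) = 0 := by
    rcases mul_eq_zero.mp h2 with h4 | h4
    · rcases mul_eq_zero.mp h4 with h5 | h5
      · exact absurd h5 hm
      · exact h5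
    · exact absurd h4 hlc
  have h4 : ((E.natDegree + 1 : ℕ) : ℂ) = (l : ℂ) := by
    push_cast
    linear_combination -h3
  exact_mod_cast h4

/-- Necessary condition for `l = 1`. -/
lemma cond_one {ω A : ℝ} (hω : 0 < ω) (hA : 0 < A) (h : HasPolySol ω 1 A) : A = 1 := by
  obtain ⟨E, hE, h⟩ := h
  have hm : ((A / (2 * ω) : ℝ) : ℂ) ≠ 0 := by
    have : A / (2 * ω) ≠ 0 := by positivity
    exact_mod_cast this
  have hd := natDegree_eq hE hm h
  have h0 := coeff_zero_rec h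
  rw [coeff_eq_zero_of_natDegree_lt (by omega : E.natDegree < 1)] at h0
  have hlc : E.coeff 0 ≠ 0 := by
    have : E.natDegree = 0 := by omega
    rw [← this, coeff_natDegree]
    exact leadingCoeff_ne_zero.mpr hE
  have h1 : ((1 / (4 * ω ^ 2) - (A / (2 * ω)) ^ 2 : ℝ) : ℂ) = 0 := by
    have : ((1 / (4 * ω ^ 2) - (A / (2 * ω)) ^ 2 : ℝ) : ℂ) * E.coeff 0 = 0 := by
      linear_combination h0
    rcases mul_eq_zero.mp this with h2 | h2
    · exact h2
    · exact absurd h2 hlc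
  have h2 : 1 / (4 * ω ^ 2) - (A / (2 * ω)) ^ 2 = 0 := by exact_mod_cast h1
  field_simp at h2
  nlinarith

/-- Necessary condition for `l = 2`. -/
lemma cond_two {ω A : ℝ} (hω : 0 < ω) (hA : 0 < A) (h : HasPolySol ω 2 A) :
    (A ^ 2 - 1) ^ 2 = 4 * ω ^ 2 := by
  obtain ⟨E, hE, h⟩ := h
  have hm : ((A / (2 * ω) : ℝ) : ℂ) ≠ 0 := by
    have : A / (2 * ω) ≠ 0 := by positivity
    exact_mod_cast this
  have hd := natDegree_eq hE hm h
  have h0 := coeff_zero_rec h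
  have h1 := coeff_rec h 0
  rw [coeff_eq_zero_of_natDegree_lt (by omega : E.natDegree < 0 + 2)] at h1
  have hlc : E.coeff 1 ≠ 0 := by
    have : E.natDegree = 1 := by omega
    rw [← this, coeff_natDegree]
    exact leadingCoeff_ne_zero.mpr hE
  set m : ℂ := ((A / (2 * ω) : ℝ) : ℂ) with hmdef
  set lam : ℂ := ((1 / (4 * ω ^ 2) - (A / (2 * ω)) ^ 2 : ℝ) : ℂ) with hlam
  have h2 : (lam * (1 - lam) + m ^ 2) * E.coeff 1 = 0 := by
    push_cast at h1
    simp only [zero_add] at h1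
    linear_combination m * h0 - lam * h1
  have h3 : lam * (1 - lam) + m ^ 2 = 0 := by
    rcases mul_eq_zero.mp h2 with h4 | h4
    · exact h4
    · exact absurd h4 hlc
  have h4 : (1 / (4 * ω ^ 2) - (A / (2 * ω)) ^ 2) * (1 - (1 / (4 * ω ^ 2) - (A / (2 * ω)) ^ 2))
      + (A / (2 * ω)) ^ 2 = 0 := by
    rw [hmdef, hlam] at h3
    exact_mod_cast h3
  field_simp at h4
  nlinarith

/-- Necessary condition for `l = 3`. -/
lemma cond_three {ω A : ℝ} (hω : 0 < ω) (hA : 0 < A) (h : HasPolySol ω 3 A) :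
    ((A ^ 2 - 1) / (2 * ω)) ^ 3 - 4 * ((A ^ 2 - 1) / (2 * ω)) = 8 * ω := by
  obtain ⟨E, hE, h⟩ := h
  have hm : ((A / (2 * ω) : ℝ) : ℂ) ≠ 0 := by
    have : A / (2 * ω) ≠ 0 := by positivity
    exact_mod_cast this
  have hd := natDegree_eq hE hm h
  have h0 := coeff_zero_rec h
  have h1 := coeff_rec h 0
  have h2 := coeff_rec h 1
  rw [coeff_eq_zero_of_natDegree_lt (by omega : E.natDegree < 1 + 2)] at h2
  have hlc : E.coeff 2 ≠ 0 := by
    have : E.natDegree = 2 := by omega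
    rw [← this, coeff_natDegree]
    exact leadingCoeff_ne_zero.mpr hE
  set m : ℂ := ((A / (2 * ω) : ℝ) : ℂ) with hmdef
  set lam : ℂ := ((1 / (4 * ω ^ 2) - (A / (2 * ω)) ^ 2 : ℝ) : ℂ) with hlam
  have h3 : (-(lam * (lam - 2) ^ 2) + 4 * m ^ 2 * (lam - 1)) * E.coeff 2 = 0 := by
    push_cast at h1 h2
    simp only [zero_add, one_add_one_eq_two] at h1 h2
    linear_combination (-2 * m ^ 2) * h0 + lam * m * h1 + (-lam * (lam - 2) + 2 * m ^ 2) * h2
  have h4 : -(lam * (lam - 2) ^ 2) + 4 * m ^ 2 * (lam - 1) = 0 := by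
    rcases mul_eq_zero.mp h3 with h4 | h4
    · exact h4
    · exact absurd h4 hlc
  have h5 : -((1 / (4 * ω ^ 2) - (A / (2 * ω)) ^ 2) *
      ((1 / (4 * ω ^ 2) - (A / (2 * ω)) ^ 2) - 2) ^ 2)
      + 4 * (A / (2 * ω)) ^ 2 * ((1 / (4 * ω ^ 2) - (A / (2 * ω)) ^ 2) - 1) = 0 := by
    rw [hmdef, hlam] at h4
    exact_mod_cast h4
  have key : ((A ^ 2 - 1) / (2 * ω)) ^ 3 - 4 * ((A ^ 2 - 1) / (2 * ω)) - 8 * ω
      = (8 * ω ^ 3) * (-((1 / (4 * ω ^ 2) - (A / (2 * ω)) ^ 2) *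
      ((1 / (4 * ω ^ 2) - (A / (2 * ω)) ^ 2) - 2) ^ 2)
      + 4 * (A / (2 * ω)) ^ 2 * ((1 / (4 * ω ^ 2) - (A / (2 * ω)) ^ 2) - 1)) := by
    field_simp
    ring
  rw [h5, mul_zero] at key
  linarith

/-- Existence of a polynomial solution for `l = 1`, `A = 1`. -/
lemma sol_one {ω : ℝ} (hω : 0 < ω) : HasPolySol ω 1 1 := by
  refine ⟨1, one_ne_zero, fun z => ?_⟩
  have : (1 / (4 * ω ^ 2) - (1 / (2 * ω)) ^ 2 : ℝ) = 0 := by
    field_simp
    ring
  rw [this]
  simp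

lemma poly_two {m lam : ℂ} (hm : m ≠ 0) (h : lam * (1 - lam) + m ^ 2 = 0) :
    ∃ E : ℂ[X], E ≠ 0 ∧ ∀ z : ℂ, z ^ 2 * (derivative (derivative E)).eval z
      + ((1 - ((2 : ℕ) : ℂ)) * z + m * (1 - z ^ 2)) * (derivative E).eval z
      + (lam + m * (((2 : ℕ) : ℂ) - 1) * z) * E.eval z = 0 := by
  refine ⟨C m * X + C (1 - lam), ?_, fun z => ?_⟩
  · intro h0
    have := congrArg (fun p => coeff p 1) h0
    simp only [coeff_add, coeff_C_mul, coeff_X_one, mul_one, coeff_zero] at this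
    rw [coeff_C_of_ne_zero one_ne_zero, add_zero] at this
    exact hm this
  · simp
    linear_combination h

lemma poly_three {m lam : ℂ} (hm : m ≠ 0)
    (h : -(lam * (lam - 2) ^ 2) + 4 * m ^ 2 * (lam - 1) = 0) :
    ∃ E : ℂ[X], E ≠ 0 ∧ ∀ z : ℂ, z ^ 2 * (derivative (derivative E)).eval z
      + ((1 - ((3 : ℕ) : ℂ)) * z + m * (1 - z ^ 2)) * (derivative E).eval z
      + (lam + m * (((3 : ℕ) : ℂ) - 1) * z) * E.eval z = 0 := by
  refine ⟨C (m * lam) * X ^ 2 + C ((2 - lam) * lam) * X + C (-m * (2 - lam)), ?_, fun z => ?_⟩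
  · intro h0
    have h2 := congrArg (fun p => eval 0 p) h0
    have h1 := congrArg (fun p => eval 1 p) h0
    have h3 := congrArg (fun p => eval (-1) p) h0
    simp only [eval_add, eval_mul, eval_C, eval_pow, eval_X, eval_zero] at h1 h2 h3
    have e1 : m * (2 - lam) = 0 := by linear_combination -h2
    have e2 : m * lam = 0 := by linear_combination h1 / 2 + h3 / 2 - h2
    have e3 : m * 2 = 0 := by linear_combination e1 + e2
    rcases mul_eq_zero.mp e3 with h4 | h4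
    · exact hm h4
    · norm_num at h4
  · simp
    linear_combination z * h

/-- Existence of a polynomial solution for `l = 2`. -/
lemma sol_two {ω A : ℝ} (hω : 0 < ω) (hA : 0 < A) (h : (A ^ 2 - 1) ^ 2 = 4 * ω ^ 2) :
    HasPolySol ω 2 A := by
  have hm : ((A / (2 * ω) : ℝ) : ℂ) ≠ 0 := by
    have : A / (2 * ω) ≠ 0 := by positivity
    exact_mod_cast this
  have hcond : (1 / (4 * ω ^ 2) - (A / (2 * ω)) ^ 2) *
      (1 - (1 / (4 * ω ^ 2) - (A / (2 * ω)) ^ 2)) + (A / (2 * ω)) ^ 2 = 0 := by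
    have : (1 / (4 * ω ^ 2) - (A / (2 * ω)) ^ 2) *
      (1 - (1 / (4 * ω ^ 2) - (A / (2 * ω)) ^ 2)) + (A / (2 * ω)) ^ 2
      = (4 * ω ^ 2 - (A ^ 2 - 1) ^ 2) / (16 * ω ^ 4) := by
      field_simp
      ring
    rw [this, h]
    simp
  have hcondC : ((1 / (4 * ω ^ 2) - (A / (2 * ω)) ^ 2 : ℝ) : ℂ) *
      (1 - ((1 / (4 * ω ^ 2) - (A / (2 * ω)) ^ 2 : ℝ) : ℂ)) + ((A / (2 * ω) : ℝ) : ℂ) ^ 2 = 0 := by
    exact_mod_cast hcond
  exact poly_two hm hcondC

/-- Existence of a polynomial solution for `l = 3`. -/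
lemma sol_three {ω A : ℝ} (hω : 0 < ω) (hA : 0 < A)
    (h : ((A ^ 2 - 1) / (2 * ω)) ^ 3 - 4 * ((A ^ 2 - 1) / (2 * ω)) = 8 * ω) :
    HasPolySol ω 3 A := by
  have hm : ((A / (2 * ω) : ℝ) : ℂ) ≠ 0 := by
    have : A / (2 * ω) ≠ 0 := by positivity
    exact_mod_cast this
  have key : ((A ^ 2 - 1) / (2 * ω)) ^ 3 - 4 * ((A ^ 2 - 1) / (2 * ω)) - 8 * ω
      = (8 * ω ^ 3) * (-((1 / (4 * ω ^ 2) - (A / (2 * ω)) ^ 2) *
      ((1 / (4 * ω ^ 2) - (A / (2 * ω)) ^ 2) - 2) ^ 2)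
      + 4 * (A / (2 * ω)) ^ 2 * ((1 / (4 * ω ^ 2) - (A / (2 * ω)) ^ 2) - 1)) := by
    field_simp
    ring
  have hcond : -((1 / (4 * ω ^ 2) - (A / (2 * ω)) ^ 2) *
      ((1 / (4 * ω ^ 2) - (A / (2 * ω)) ^ 2) - 2) ^ 2)
      + 4 * (A / (2 * ω)) ^ 2 * ((1 / (4 * ω ^ 2) - (A / (2 * ω)) ^ 2) - 1) = 0 := by
    rw [h, sub_self] at key
    have h8 : (8 * ω ^ 3 : ℝ) ≠ 0 := by positivity
    rcases mul_eq_zero.mp key.symm with h1 | h1
    · exact absurd h1 h8
    · exact h1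
  have hcondC : -(((1 / (4 * ω ^ 2) - (A / (2 * ω)) ^ 2 : ℝ) : ℂ) *
      (((1 / (4 * ω ^ 2) - (A / (2 * ω)) ^ 2 : ℝ) : ℂ) - 2) ^ 2)
      + 4 * ((A / (2 * ω) : ℝ) : ℂ) ^ 2 *
        (((1 / (4 * ω ^ 2) - (A / (2 * ω)) ^ 2 : ℝ) : ℂ) - 1) = 0 := by
    exact_mod_cast hcond
  exact poly_three hm hcondC

/-- The cubic `y³ - 4y = 8ω` has a root `y ≥ 2` for `ω > 0`. -/
lemma exists_root {ω : ℝ} (hω : 0 < ω) : ∃ y : ℝ, 2 < y ∧ y ^ 3 - 4 * y = 8 * ω := by
  have hc : ContinuousOn (fun y : ℝ => y ^ 3 - 4 * y) (Set.Icc 2 (2 + ω)) := by fun_prop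
  have := intermediate_value_Icc (by linarith : (2 : ℝ) ≤ 2 + ω) hc
  have hmem : 8 * ω ∈ Set.Icc ((fun y : ℝ => y ^ 3 - 4 * y) 2)
      ((fun y : ℝ => y ^ 3 - 4 * y) (2 + ω)) := by
    constructor
    · simp only
      nlinarith
    · simp only
      nlinarith [sq_nonneg ω, mul_pos hω hω, mul_pos (mul_pos hω hω) hω]
  obtain ⟨y, hy, hy2⟩ := this hmem
  refine ⟨y, lt_of_le_of_ne hy.1 ?_, hy2⟩
  rintro rfl
  norm_num at hy2
  exact hω.ne' hy2

/-- **Main theorem.** For every `ω > 0` the points `𝒫₁, 𝒫₂, 𝒫₃` exist and are not collinear. -/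
theorem result (ω : ℝ) (hω : 0 < ω) :
    ∃ P₁ P₂ P₃ : ℝ × ℝ, IsExtremalPoint ω 1 P₁ ∧ IsExtremalPoint ω 2 P₂ ∧
      IsExtremalPoint ω 3 P₃ ∧ ¬ Collinear ℝ ({P₁, P₂, P₃} : Set (ℝ × ℝ)) := by
  obtain ⟨y, hy2, hy⟩ := exists_root hω
  have hS2 : (0 : ℝ) < 1 + 2 * ω := by linarith
  have hS3 : (0 : ℝ) < 1 + 2 * ω * y := by positivity
  have hq2 : √(1 + 2 * ω) ^ 2 = 1 + 2 * ω := Real.sq_sqrt hS2.le
  have hq3 : √(1 + 2 * ω * y) ^ 2 = 1 + 2 * ω * y := Real.sq_sqrt hS3.le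
  have hp2 : 0 < √(1 + 2 * ω) := Real.sqrt_pos.mpr hS2
  have hp3 : 0 < √(1 + 2 * ω * y) := Real.sqrt_pos.mpr hS3
  refine ⟨(1 * ω, 1), (2 * ω, √(1 + 2 * ω)), (3 * ω, √(1 + 2 * ω * y)), ?_, ?_, ?_, ?_⟩
  · refine ⟨by simp, sol_one hω, ?_⟩
    intro A hA
    by_cases hA0 : 0 < A
    · exact (cond_one hω hA0 hA).le
    · simp only
      linarith
  · refine ⟨by simp, ?_, ?_⟩
    · refine sol_two hω hp2 ?_
      rw [hq2]
      ring
    · intro A hA
      by_cases hA0 : 0 < A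
      · have h := cond_two hω hA0 hA
        apply Real.le_sqrt_of_sq_le
        nlinarith
      · simp only
        linarith
  · refine ⟨by simp, ?_, ?_⟩
    · refine sol_three hω hp3 ?_
      rw [hq3]
      have : (1 + 2 * ω * y - 1) / (2 * ω) = y := by
        field_simp
        ring
      rw [this]
      exact hy
    · intro A hA
      by_cases hA0 : 0 < A
      · have h := cond_three hω hA0 hA
        set w := (A ^ 2 - 1) / (2 * ω) with hw
        have hAw : A ^ 2 = 1 + 2 * ω * w := by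
          rw [hw]
          field_simp
          ring
        have hwy : w ≤ y := by
          by_contra hlt
          push Not at hlt
          have h1 : 0 < w - y := by linarith
          have h2 : (w - y) * (w ^ 2 + w * y + y ^ 2 - 4) = 0 := by nlinarith
          have h3 : 0 < w ^ 2 + w * y + y ^ 2 - 4 := by nlinarith
          have := mul_pos h1 h3
          linarith
        apply Real.le_sqrt_of_sq_le
        rw [hAw]
        nlinarith
      · simp only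
        linarith
  · intro hcol
    have hmem : ((1 * ω, 1) : ℝ × ℝ) ∈
        ({(1 * ω, 1), (2 * ω, √(1 + 2 * ω)), (3 * ω, √(1 + 2 * ω * y))} : Set (ℝ × ℝ)) := by simp
    rw [collinear_iff_of_mem hmem] at hcol
    obtain ⟨v, hv⟩ := hcol
    obtain ⟨r2, h2⟩ := hv (2 * ω, √(1 + 2 * ω)) (by simp)
    obtain ⟨r3, h3⟩ := hv (3 * ω, √(1 + 2 * ω * y)) (by simp)
    simp only [vadd_eq_add, Prod.ext_iff, Prod.fst_add, Prod.smul_fst, Prod.snd_add,
      Prod.smul_snd, smul_eq_mul] at h2 h3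
    obtain ⟨h2a, h2b⟩ := h2
    obtain ⟨h3a, h3b⟩ := h3
    have hcross : √(1 + 2 * ω * y) - 1 = 2 * (√(1 + 2 * ω) - 1) := by
      have e1 : ω = r2 * v.1 := by linarith
      have e2 : 2 * ω = r3 * v.1 := by linarith
      have e3 : ω * (√(1 + 2 * ω * y) - 1) = 2 * ω * (√(1 + 2 * ω) - 1) := by
        have e4 : √(1 + 2 * ω * y) - 1 = r3 * v.2 := by linarith
        have e5 : √(1 + 2 * ω) - 1 = r2 * v.2 := by linarith
        rw [e4, e5]
        have : ω * (r3 * v.2) = (r2 * v.1) * (r3 * v.2) := by rw [← e1]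
        rw [this]
        have : 2 * ω * (r2 * v.2) = (r3 * v.1) * (r2 * v.2) := by rw [← e2]
        rw [this]
        ring
      have := mul_left_cancel₀ hω.ne' (by linarith :
        ω * (√(1 + 2 * ω * y) - 1) = ω * (2 * (√(1 + 2 * ω) - 1)))
      exact this
    set x := √(1 + 2 * ω) with hx
    have hx1 : 1 < x := by nlinarith
    have hω2 : 2 * ω = x ^ 2 - 1 := by linarith
    have h4 : (2 * x - 1) ^ 2 = 1 + (x ^ 2 - 1) * y := by
      rw [← hω2, ← hq3]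
      have : √(1 + 2 * ω * y) = 2 * x - 1 := by linarith
      rw [this]
    have h5 : (x + 1) * y = 4 * x := by
      have h6 : (x - 1) * ((x + 1) * y) = (x - 1) * (4 * x) := by nlinarith
      exact mul_left_cancel₀ (by linarith : x - 1 ≠ 0) h6
    have h7 : (x + 1) ^ 3 * (y ^ 3 - 4 * y) = (x + 1) ^ 3 * (4 * (x ^ 2 - 1)) := by
      rw [hy]
      have : 8 * ω = 4 * (x ^ 2 - 1) := by linarith
      rw [this]
    have h8 : (x + 1) ^ 3 * (y ^ 3 - 4 * y) = (4 * x) ^ 3 - 4 * (x + 1) ^ 2 * (4 * x) := by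
      rw [← h5]
      ring
    have h9 : (x - 1) ^ 2 * (x ^ 3 + 5 * x ^ 2 - x - 1) = 0 := by
      have : (x + 1) ^ 3 * (4 * (x ^ 2 - 1)) - ((4 * x) ^ 3 - 4 * (x + 1) ^ 2 * (4 * x))
        = 4 * ((x - 1) ^ 2 * (x ^ 3 + 5 * x ^ 2 - x - 1)) := by ring
      nlinarith
    have h10 : 0 < (x - 1) ^ 2 * (x ^ 3 + 5 * x ^ 2 - x - 1) := by
      apply mul_pos
      · exact pow_pos (by linarith) 2
      · nlinarith [pow_pos (by linarith : (0:ℝ) < x) 3]
    linarith

end Pool.Agent.Results.MP_e0279d_an.NeverCollinear
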